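import Pool.Agent.R627.TorusMin

set_option linter.style.haveILetI false

/-!
# A faithful, minimal, strongly proximal, not topologically free action of a free group

Answer (negative) to Q1 of MP_0c6837_al.

The free group of rank three acts on the two-dimensional torus by homeomorphisms so that the action
is faithful, minimal and strongly proximal, but one of the free generators is the identity on a
nonempty open set.
-/

namespace Pool.Agent.Results.MP_0c6837_al.NotTopFree

open Set Function Topology Filter MeasureTheory Pool.Agent.R627.TorusMaps
  Pool.Agent.R627.TorusFaith Pool.Agent.R627.TorusMin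

/-- Strong proximality: the weak-* closure of the orbit (under push-forward) of every Borel
probability measure contains a Dirac measure. -/
def StronglyProximal (G X : Type) [Group G] [TopologicalSpace X] [MeasurableSpace X]
    [BorelSpace X] [MulAction G X] [ContinuousConstSMul G X] : Prop :=
  ∀ μ : ProbabilityMeasure X, ∃ x : X, diracProba x ∈
    closure (range fun g : G =>
      μ.map (f := fun y : X => g • y) (continuous_const_smul g).measurable.aemeasurable)

/-- Topological freeness: the points with trivial stabilizer are dense. -/
def TopologicallyFree (G X : Type) [Group G] [TopologicalSpace X] [MulAction G X] : Prop :=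
  Dense {x : X | MulAction.stabilizer G x = ⊥}

/-- The free group of rank three has an action by homeomorphisms on a nonempty compact metrizable
space (the two-dimensional torus) which is faithful, minimal (every orbit is dense) and strongly
proximal, but not topologically free. -/
theorem result :
    ∃ (X : Type) (_ : TopologicalSpace X) (_ : CompactSpace X) (_ : T2Space X)
      (_ : TopologicalSpace.MetrizableSpace X) (_ : Nonempty X) (_ : MeasurableSpace X) (_ : BorelSpace X)
      (_ : MulAction (FreeGroup (Fin 3)) X) (_ : ContinuousConstSMul (FreeGroup (Fin 3)) X),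
      Nonempty (X ≃ₜ UnitAddCircle × UnitAddCircle) ∧
      (∀ g : FreeGroup (Fin 3), (∀ x : X, g • x = x) → g = 1) ∧
      (∀ x : X, Dense (MulAction.orbit (FreeGroup (Fin 3)) x)) ∧
      StronglyProximal (FreeGroup (Fin 3)) X ∧
      ¬ TopologicallyFree (FreeGroup (Fin 3)) X := by
  letI act : MulAction (FreeGroup (Fin 3)) TT :=
    { smul := fun g p => rep g p
      one_smul := fun p => by
        show rep 1 p = p
        rw [map_one]
        rfl
      mul_smul := fun g h p => by
        show rep (g * h) p = rep g (rep h p)
        rw [map_mul]
        rfl }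
  have hsm : ∀ (g : FreeGroup (Fin 3)) (p : TT), g • p = rep g p := fun _ _ => rfl
  haveI hcc : ContinuousConstSMul (FreeGroup (Fin 3)) TT :=
    ⟨fun g => (rep g).continuous⟩
  refine ⟨TT, inferInstance, inferInstance, inferInstance, inferInstance, inferInstance,
    inferInstance, inferInstance, act, hcc, ⟨Homeomorph.refl _⟩, ?_, ?_, ?_, ?_⟩
  · intro g hg
    exact rep_faithful g hg
  · intro x
    have hZ : IsClosed (closure (MulAction.orbit (FreeGroup (Fin 3)) x)) := isClosed_closure
    have hinv : ∀ g : FreeGroup (Fin 3), ∀ p ∈ closure (MulAction.orbit (FreeGroup (Fin 3)) x),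
        rep g p ∈ closure (MulAction.orbit (FreeGroup (Fin 3)) x) := by
      intro g p hp
      have hmaps : MapsTo (rep g) (MulAction.orbit (FreeGroup (Fin 3)) x)
          (MulAction.orbit (FreeGroup (Fin 3)) x) := by
        rintro _ ⟨k, rfl⟩
        refine ⟨g * k, ?_⟩
        show (g * k) • x = rep g (k • x)
        rw [mul_smul]
        rfl
      exact map_mem_closure (rep g).continuous hp hmaps
    have hne : (closure (MulAction.orbit (FreeGroup (Fin 3)) x)).Nonempty :=
      ⟨x, subset_closure (MulAction.mem_orbit_self x)⟩
    have h := minimal hZ hinv hne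
    exact dense_iff_closure_eq.mpr h
  · intro μ
    refine ⟨ps, ?_⟩
    refine mem_closure_of_tendsto (f := fun n : ℕ => μ.map (f := fun y : TT => vn n • y)
      (continuous_const_smul (vn n)).measurable.aemeasurable) (b := atTop) ?_
      (Eventually.of_forall fun n => ⟨vn n, rfl⟩)
    rw [ProbabilityMeasure.tendsto_iff_forall_integral_tendsto]
    intro f
    have e1 : ∀ n : ℕ, ∫ x, f x ∂((μ.map (f := fun y : TT => vn n • y)
        (continuous_const_smul (vn n)).measurable.aemeasurable : ProbabilityMeasure TT) :
          Measure TT) = ∫ x, f (vn n • x) ∂(μ : Measure TT) := by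
      intro n
      rw [ProbabilityMeasure.toMeasure_map]
      exact integral_map (continuous_const_smul (vn n)).measurable.aemeasurable
        f.continuous.aestronglyMeasurable
    have e2 : ∫ x, f x ∂((diracProba ps : ProbabilityMeasure TT) : Measure TT) =
        ∫ _, f ps ∂(μ : Measure TT) := by
      rw [show ((diracProba ps : ProbabilityMeasure TT) : Measure TT) = Measure.dirac ps from rfl,
        integral_dirac]
      simp
    simp only [e1]
    rw [e2]
    refine tendsto_integral_of_dominated_convergence (fun _ => ‖f‖) ?_ ?_ ?_ ?_
    · intro n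
      exact (f.continuous.comp (continuous_const_smul (vn n))).aestronglyMeasurable
    · exact integrable_const _
    · intro n
      exact Eventually.of_forall fun x => f.norm_coe_le_norm _
    · exact Eventually.of_forall fun x => (f.continuous.tendsto ps).comp (tendsto_vn x)
  · intro hd
    have hU : IsOpen (lv ⁻¹' (((↑) : ℝ → UnitAddCircle) '' Ioo 0 (1 / 2))) :=
      (QuotientAddGroup.isOpenMap_coe _ isOpen_Ioo).preimage lv_cont
    have hne : (lv ⁻¹' (((↑) : ℝ → UnitAddCircle) '' Ioo 0 (1 / 2))).Nonempty := by
      refine ⟨pr (0, 1 / 4), 1 / 4, ⟨by norm_num, by norm_num⟩, ?_⟩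
      rw [lv_pr]
      unfold zz
      norm_num
    obtain ⟨p, hp1, hp2⟩ := hd.inter_open_nonempty _ hU hne
    obtain ⟨t, ⟨ht0, ht1⟩, ht⟩ := hp1
    have hfix : (FreeGroup.of 2 : FreeGroup (Fin 3)) ∈
        MulAction.stabilizer (FreeGroup (Fin 3)) p := by
      rw [MulAction.mem_stabilizer_iff]
      have h0 : rep (FreeGroup.of 2) = gh := by
        rw [rep, FreeGroup.lift_apply_of]
        rfl
      show rep (FreeGroup.of 2) p = p
      rw [h0]
      show gm 1 p = p
      rw [gm, ← ht, CC_coe, cc_low t 0 (by push_cast; exact ht0.le) (by push_cast; linarith)]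
      simp
    have hp2' : MulAction.stabilizer (FreeGroup (Fin 3)) p = ⊥ := hp2
    rw [hp2', Subgroup.mem_bot] at hfix
    exact FreeGroup.of_ne_one 2 hfix

end Pool.Agent.Results.MP_0c6837_al.NotTopFree
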